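import Pool.Agent.H37.CNV.Stmts

/-!
# Row VB1 of the board `cnv`
-/

set_option autoImplicit false

namespace Pool.CND

open Finset Matrix

section VB1

variable {F : Type} [Field F] {σ : F →+* F}

/-- a `p`-group acting on a nonzero subspace of `F ^ 3` has a nonzero fixed vector -/
theorem vb1_fix {p : ℕ} (hp : p.Prime) [Finite F] (hF : p ∣ Nat.card F) (W : Subgroup (SU3 σ))
    (hW : ∃ r : ℕ, Nat.card W = p ^ r) (M : Submodule F (Fin 3 → F)) (hM : M ≠ ⊥)
    (hinv : ∀ w ∈ W, ∀ x ∈ M, w.1.1 *ᵥ x ∈ M) :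
    ∃ x ∈ M, x ≠ 0 ∧ ∀ w ∈ W, w.1.1 *ᵥ x = x := by
  have hpf : Fact p.Prime := ⟨hp⟩
  let act : MulAction W M :=
    { smul := fun w x => ⟨w.1.1.1 *ᵥ x.1, hinv _ w.2 _ x.2⟩
      one_smul := by
        intro x
        apply Subtype.ext
        show (1 : Matrix (Fin 3) (Fin 3) F) *ᵥ x.1 = x.1
        exact Matrix.one_mulVec _
      mul_smul := by
        intro a b x
        apply Subtype.ext
        show (a.1.1.1 * b.1.1.1) *ᵥ x.1 = a.1.1.1 *ᵥ (b.1.1.1 *ᵥ x.1)
        rw [Matrix.mulVec_mulVec] }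
  obtain ⟨r, hr⟩ := hW
  have hG : IsPGroup p W := IsPGroup.of_card hr
  have hfin : Finite M := inferInstance
  have hrank : 0 < Module.finrank F M := by
    have h1 : Nontrivial M := (Submodule.nontrivial_iff_ne_bot).2 hM
    exact Module.finrank_pos
  have hdvd : p ∣ Nat.card M := by
    rw [Module.natCard_eq_pow_finrank (K := F) (V := M)]
    exact dvd_pow hF (by omega)
  have h0 : (0 : M) ∈ MulAction.fixedPoints W M := by
    intro w
    apply Subtype.ext
    show w.1.1.1 *ᵥ (0 : Fin 3 → F) = 0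
    exact Matrix.mulVec_zero _
  obtain ⟨b, hb1, hb2⟩ := hG.exists_fixed_point_of_prime_dvd_card_of_fixed_point M hdvd h0
  refine ⟨b.1, b.2, ?_, ?_⟩
  · intro h
    exact hb2 (Subtype.ext h.symm)
  · intro w hw
    have := hb1 ⟨w, hw⟩
    exact congrArg Subtype.val this

/-- the form -/
def vb1H (σ : F →+* F) (v x : Fin 3 → F) : F := σ (v 0) * x 2 + σ (v 2) * x 0 - σ (v 1) * x 1

theorem vb1H_eq (v x : Fin 3 → F) : vb1H σ v x = (σ ∘ v) ⬝ᵥ (J3 F *ᵥ x) := by
  simp [vb1H, J3, dotProduct, Fin.sum_univ_three, Matrix.mulVec]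
  ring

theorem vb1_JJ : J3 F * J3 F = 1 := by
  ext i j
  fin_cases i <;> fin_cases j <;> simp [J3, Matrix.mul_apply, Fin.sum_univ_three]

theorem vb1_rel (g : SU3 σ) : g.1.1 * J3 F * (g.1.1.map σ)ᵀ = J3 F := g.2

theorem vb1_rel' (g : SU3 σ) : (g.1.1.map σ)ᵀ * J3 F * g.1.1 = J3 F := by
  have h1 : (J3 F * g.1.1 * J3 F) * (g.1.1.map σ)ᵀ = 1 := by
    calc (J3 F * g.1.1 * J3 F) * (g.1.1.map σ)ᵀ = J3 F * (g.1.1 * J3 F * (g.1.1.map σ)ᵀ) := by
          simp only [Matrix.mul_assoc]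
      _ = 1 := by rw [vb1_rel g, vb1_JJ]
  have h2 : (g.1.1.map σ)ᵀ * (J3 F * g.1.1 * J3 F) = 1 := mul_eq_one_comm.1 h1
  calc (g.1.1.map σ)ᵀ * J3 F * g.1.1 = (g.1.1.map σ)ᵀ * J3 F * g.1.1 * (J3 F * J3 F) := by
        rw [vb1_JJ, Matrix.mul_one]
    _ = ((g.1.1.map σ)ᵀ * (J3 F * g.1.1 * J3 F)) * J3 F := by simp only [Matrix.mul_assoc]
    _ = J3 F := by rw [h2, Matrix.one_mul]

theorem vb1_inv (g : SU3 σ) (v x : Fin 3 → F) :
    vb1H σ (g.1.1 *ᵥ v) (g.1.1 *ᵥ x) = vb1H σ v x := by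
  rw [vb1H_eq, vb1H_eq]
  have h1 : σ ∘ (g.1.1 *ᵥ v) = (g.1.1.map σ) *ᵥ (σ ∘ v) := by
    funext i
    exact RingHom.map_mulVec σ g.1.1 v i
  rw [h1, Matrix.mulVec_mulVec, ← Matrix.vecMul_transpose, ← Matrix.dotProduct_mulVec,
    Matrix.mulVec_mulVec, ← Matrix.mul_assoc, vb1_rel' g]

/-- transitivity on isotropic lines -/
theorem vb1_trans (hσσ : ∀ a : F, σ (σ a) = a)
    (v : Fin 3 → F) (hv : v ≠ 0) (hiso : vb1H σ v v = 0) :
    ∃ (h : SU3 σ) (c : F), c ≠ 0 ∧ v = c • (h.1.1 *ᵥ ![1, 0, 0]) := by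
  by_cases h2 : v 2 = 0
  · have h1 : v 1 = 0 := by
      have h3 : σ (v 1) * v 1 = 0 := by
        have h4 := hiso
        unfold vb1H at h4
        rw [h2, map_zero] at h4
        linear_combination -h4
      rcases mul_eq_zero.1 h3 with h | h
      · exact (map_eq_zero σ).1 h
      · exact h
    refine ⟨1, v 0, ?_, ?_⟩
    · intro h0
      apply hv
      funext i
      fin_cases i
      · exact h0
      · exact h1
      · exact h2
    · funext i
      show v i = (v 0 • ((1 : Matrix (Fin 3) (Fin 3) F) *ᵥ ![1, 0, 0])) i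
      rw [Matrix.one_mulVec]
      fin_cases i
      · simp
      · simp [h1]
      · simp [h2]
  · set s := v 0 / v 2 with hs
    set t := v 1 / v 2 with ht
    have hst : s + σ s = t * σ t := by
      have h4 := hiso
      unfold vb1H at h4
      have h5 : σ (v 2) ≠ 0 := fun h => h2 ((map_eq_zero σ).1 h)
      rw [hs, ht, map_div₀, map_div₀]
      field_simp
      linear_combination h4
    let m : Matrix (Fin 3) (Fin 3) F := !![s, -σ t, 1; t, -1, 0; 1, 0, 0]
    have hm : m.det = 1 := by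
      simp [m, Matrix.det_fin_three]
    have hmem : m * J3 F * (m.map σ)ᵀ = J3 F := by
      ext i j
      fin_cases i <;> fin_cases j <;>
        simp [m, J3, Matrix.mul_apply, Fin.sum_univ_three, hσσ]
      linear_combination hst
    refine ⟨⟨⟨m, hm⟩, hmem⟩, v 2, h2, ?_⟩
    funext i
    show v i = (v 2 • (m *ᵥ ![1, 0, 0])) i
    fin_cases i
    · simp [m, hs]
      field_simp
    · simp [m, ht]
      field_simp
    · simp [m]

/-- the cross product -/
def vb1X (v x : Fin 3 → F) : Fin 3 → F :=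
  ![v 1 * x 2 - v 2 * x 1, v 2 * x 0 - v 0 * x 2, v 0 * x 1 - v 1 * x 0]

theorem vb1_cross (w : Matrix (Fin 3) (Fin 3) F) (v x : Fin 3 → F) :
    wᵀ *ᵥ vb1X (w *ᵥ v) (w *ᵥ x) = w.det • vb1X v x := by
  funext i
  fin_cases i <;>
    simp [vb1X, Matrix.mulVec, dotProduct, Fin.sum_univ_three, Matrix.det_fin_three] <;> ring

theorem vb1_z {w : SU3 σ} {v x : Fin 3 → F} (hv : w.1.1 *ᵥ v = v) (hx : w.1.1 *ᵥ x = x) :
    w.1.1 *ᵥ (J3 F *ᵥ (σ ∘ vb1X v x)) = J3 F *ᵥ (σ ∘ vb1X v x) := by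
  have h1 : (w.1.1)ᵀ *ᵥ vb1X v x = vb1X v x := by
    have h2 := vb1_cross w.1.1 v x
    rw [hv, hx, w.1.2, one_smul] at h2
    exact h2
  have h3 : (w.1.1.map σ)ᵀ *ᵥ (σ ∘ vb1X v x) = σ ∘ vb1X v x := by
    funext i
    have h4 := congrArg σ (congrFun h1 i)
    rw [RingHom.map_mulVec] at h4
    rw [Matrix.transpose_map] at h4
    exact h4
  calc w.1.1 *ᵥ (J3 F *ᵥ (σ ∘ vb1X v x))
      = w.1.1 *ᵥ (J3 F *ᵥ ((w.1.1.map σ)ᵀ *ᵥ (σ ∘ vb1X v x))) := by rw [h3]
    _ = (w.1.1 * J3 F * (w.1.1.map σ)ᵀ) *ᵥ (σ ∘ vb1X v x) := by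
      simp only [Matrix.mulVec_mulVec, Matrix.mul_assoc]
    _ = _ := by rw [vb1_rel w]

theorem vb1_X_ne {v x : Fin 3 → F} (hv : vb1H σ v v ≠ 0) (hx : vb1H σ v x = 0) (hx0 : x ≠ 0) :
    vb1X v x ≠ 0 := by
  intro h
  have e0 : v 1 * x 2 - v 2 * x 1 = 0 := congrFun h 0
  have e1 : v 2 * x 0 - v 0 * x 2 = 0 := congrFun h 1
  have e2 : v 0 * x 1 - v 1 * x 0 = 0 := congrFun h 2
  have key : ∀ i, x i * vb1H σ v v = v i * vb1H σ v x := by
    intro i
    unfold vb1H
    fin_cases i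
    · show x 0 * _ = v 0 * _
      linear_combination (σ (v 0)) * e1 + (σ (v 1)) * e2
    · show x 1 * _ = v 1 * _
      linear_combination (-σ (v 0)) * e0 + (σ (v 2)) * e2
    · show x 2 * _ = v 2 * _
      linear_combination (-σ (v 2)) * e1 - (σ (v 1)) * e0
  apply hx0
  funext i
  have h1 := key i
  rw [hx, mul_zero] at h1
  rcases mul_eq_zero.1 h1 with h2 | h2
  · exact h2
  · exact absurd h2 hv

theorem vb1_iso {p : ℕ} (hp : p.Prime) [Finite F] (hF : p ∣ Nat.card F)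
    (hσσ : ∀ a : F, σ (σ a) = a) (W : Subgroup (SU3 σ)) (hW : ∃ r : ℕ, Nat.card W = p ^ r)
    (hne : W ≠ ⊥) : ∃ v : Fin 3 → F, v ≠ 0 ∧ vb1H σ v v = 0 ∧ ∀ w ∈ W, w.1.1 *ᵥ v = v := by
  obtain ⟨v, -, hv0, hv⟩ := vb1_fix hp hF W hW ⊤ top_ne_bot (fun _ _ _ _ => Submodule.mem_top)
  by_cases hiso : vb1H σ v v = 0
  · exact ⟨v, hv0, hiso, hv⟩
  let φ : (Fin 3 → F) →ₗ[F] F :=
    { toFun := fun x => vb1H σ v x
      map_add' := by
        intro a b
        simp only [vb1H, Pi.add_apply]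
        ring
      map_smul' := by
        intro a b
        simp only [vb1H, Pi.smul_apply, smul_eq_mul, RingHom.id_apply]
        ring }
  have hker : LinearMap.ker φ ≠ ⊥ := by
    intro h
    have h1 := LinearMap.finrank_le_finrank_of_injective (LinearMap.ker_eq_bot.1 h)
    rw [Module.finrank_pi, Module.finrank_self, Fintype.card_fin] at h1
    omega
  obtain ⟨x, hx, hx0, hxf⟩ := vb1_fix hp hF W hW (LinearMap.ker φ) hker (by
    intro w hw x hx
    rw [LinearMap.mem_ker] at hx ⊢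
    show vb1H σ v (w.1.1 *ᵥ x) = 0
    have h1 := vb1_inv w v x
    rw [hv w hw] at h1
    rw [h1]
    exact hx)
  have hx1 : vb1H σ v x = 0 := LinearMap.mem_ker.1 hx
  have hc := vb1_X_ne hiso hx1 hx0
  set c := vb1X v x with hcdef
  set z := J3 F *ᵥ (σ ∘ c) with hzdef
  have z0 : z 0 = σ (c 2) := by
    simp [hzdef, J3, Matrix.mulVec, dotProduct, Fin.sum_univ_three]
  have z1 : z 1 = -σ (c 1) := by
    simp [hzdef, J3, Matrix.mulVec, dotProduct, Fin.sum_univ_three]
  have z2 : z 2 = σ (c 0) := by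
    simp [hzdef, J3, Matrix.mulVec, dotProduct, Fin.sum_univ_three]
  by_cases hz : vb1H σ z z = 0
  · refine ⟨z, ?_, hz, fun w hw => vb1_z (hv w hw) (hxf w hw)⟩
    intro h
    apply hc
    funext i
    have a0 := congrFun h 0
    have a1 := congrFun h 1
    have a2 := congrFun h 2
    rw [z0] at a0
    rw [z1] at a1
    rw [z2] at a2
    fin_cases i
    · exact (map_eq_zero σ).1 a2
    · exact (map_eq_zero σ).1 (neg_eq_zero.1 a1)
    · exact (map_eq_zero σ).1 a0
  · exfalso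
    apply hne
    rw [Subgroup.eq_bot_iff_forall]
    intro w hw
    have hwz := vb1_z (hv w hw) (hxf w hw)
    rw [← hcdef, ← hzdef] at hwz
    let M : Matrix (Fin 3) (Fin 3) F := !![v 0, x 0, z 0; v 1, x 1, z 1; v 2, x 2, z 2]
    have hdet : M.det = vb1H σ z z := by
      have d1 : M.det = c 0 * z 0 + c 1 * z 1 + c 2 * z 2 := by
        simp [M, Matrix.det_fin_three, hcdef, vb1X]
        ring
      rw [d1]
      unfold vb1H
      rw [z0, z1, z2, hσσ, hσσ, map_neg, hσσ]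
      ring
    have hM : w.1.1 * M = M := by
      ext i j
      rw [Matrix.mul_apply, Fin.sum_univ_three]
      have b0 := congrFun (hv w hw) i
      have b1 := congrFun (hxf w hw) i
      have b2 := congrFun hwz i
      simp only [Matrix.mulVec, dotProduct, Fin.sum_univ_three] at b0 b1 b2
      fin_cases i <;> fin_cases j <;> first | exact b0 | exact b1 | exact b2
    have hu : IsUnit M.det := by
      rw [hdet]
      exact isUnit_iff_ne_zero.2 hz
    have h1 : w.1.1 = 1 := by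
      have h2 : w.1.1 * M * M⁻¹ = M * M⁻¹ := by rw [hM]
      rw [Matrix.mul_assoc, Matrix.mul_nonsing_inv M hu, Matrix.mul_one] at h2
      exact h2
    exact Subtype.ext (Subtype.ext h1)

end VB1

theorem vb1_thm (hUNB : S_UNB) : S_VB1 := by
  intro p F _ f q σ hp hf hq hcard hσ W hne hW
  have hq0 : 0 < q := by
    rw [hq]
    exact pow_pos hp.pos f
  have hfin : Finite F := Nat.finite_of_card_ne_zero (by
    rw [hcard]
    positivity)
  have hF : p ∣ Nat.card F := by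
    rw [hcard, hq]
    exact dvd_pow (dvd_pow_self p (by omega)) (by norm_num)
  have hσσ : ∀ a : F, σ (σ a) = a := by
    intro a
    rw [hσ, hσ, ← pow_mul, ← sq, ← hcard]
    have hft : Fintype F := Fintype.ofFinite F
    rw [Nat.card_eq_fintype_card]
    exact FiniteField.pow_card a
  have hfin2 : Finite (SU3 σ) := by
    have h1 : Finite (Matrix (Fin 3) (Fin 3) F) := inferInstance
    exact Finite.of_injective (fun g : SU3 σ => g.1.1) (by
      intro a b h
      exact Subtype.ext (Subtype.ext h))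
  obtain ⟨v, hv0, hviso, hv⟩ := vb1_iso hp hF hσσ W hW hne
  obtain ⟨h, c, hc, hvh⟩ := vb1_trans hσσ v hv0 hviso
  refine ⟨h, ?_⟩
  have hh : ∀ w ∈ W, w.1.1 *ᵥ (h.1.1 *ᵥ ![1, 0, 0]) = h.1.1 *ᵥ ![1, 0, 0] := by
    intro w hw
    have h1 := hv w hw
    rw [hvh, Matrix.mulVec_smul] at h1
    exact smul_right_injective _ hc h1
  intro g hg
  have hconj : ∀ w ∈ W, ∃ w1 ∈ W, w * g = g * w1 := by
    have hle : Subgroup.map (MulAut.conj g).toMonoidHom W ≤ W := by
      rintro _ ⟨w, hw, rfl⟩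
      exact hg w hw
    have heq : Subgroup.map (MulAut.conj g).toMonoidHom W = W := by
      apply Subgroup.eq_of_le_of_card_ge hle
      rw [Subgroup.card_map_of_injective (MulAut.conj g).injective]
    intro w hw
    rw [← heq] at hw
    obtain ⟨w1, hw1, rfl⟩ := hw
    refine ⟨w1, hw1, ?_⟩
    show g * w1 * g⁻¹ * g = g * w1
    group
  set x := (h⁻¹ * g * h).1.1 *ᵥ ![1, 0, 0] with hx
  have hx0 : x 0 = (h⁻¹ * g * h).1.1 0 0 := by
    simp [hx, Matrix.mulVec, dotProduct, Fin.sum_univ_three]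
  have hx1 : x 1 = (h⁻¹ * g * h).1.1 1 0 := by
    simp [hx, Matrix.mulVec, dotProduct, Fin.sum_univ_three]
  have hx2 : x 2 = (h⁻¹ * g * h).1.1 2 0 := by
    simp [hx, Matrix.mulVec, dotProduct, Fin.sum_univ_three]
  have hxiso : vb1H σ x x = 0 := by
    rw [hx, vb1_inv]
    simp [vb1H]
  have hmv : ∀ (a b : SU3 σ) (y : Fin 3 → F), (a * b).1.1 *ᵥ y = a.1.1 *ᵥ (b.1.1 *ᵥ y) := by
    intro a b y
    rw [Matrix.mulVec_mulVec]
    rfl
  have hfix0 : ∀ w ∈ W, (h⁻¹ * w * h).1.1 *ᵥ ![1, 0, 0] = ![1, 0, 0] := by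
    intro w hw
    rw [hmv, hmv, hh w hw, ← hmv, inv_mul_cancel]
    exact Matrix.one_mulVec _
  have hfixx : ∀ w ∈ W, (h⁻¹ * w * h).1.1 *ᵥ x = x := by
    intro w hw
    obtain ⟨w1, hw1, e⟩ := hconj w hw
    have e2 : (h⁻¹ * w * h) * (h⁻¹ * g * h) = h⁻¹ * g * (w1 * h) := by
      calc (h⁻¹ * w * h) * (h⁻¹ * g * h) = h⁻¹ * (w * g) * h := by group
        _ = h⁻¹ * (g * w1) * h := by rw [e]
        _ = h⁻¹ * g * (w1 * h) := by group
    rw [hx, ← hmv, e2, hmv, hmv w1 h, hh w1 hw1, ← hmv]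
  have hx2z : x 2 = 0 := by
    by_contra hx2n
    apply hne
    rw [Subgroup.eq_bot_iff_forall]
    intro w hw
    obtain ⟨w', hw'⟩ : ∃ w' : SU3 σ, w' = h⁻¹ * w * h := ⟨_, rfl⟩
    have f0 := hfix0 w hw
    rw [← hw'] at f0
    have g0 : w'.1.1 0 0 = 1 := by
      have := congrFun f0 0
      simpa [Matrix.mulVec, dotProduct, Fin.sum_univ_three] using this
    have g1 : w'.1.1 1 0 = 0 := by
      have := congrFun f0 1
      simpa [Matrix.mulVec, dotProduct, Fin.sum_univ_three] using this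
    have g2 : w'.1.1 2 0 = 0 := by
      have := congrFun f0 2
      simpa [Matrix.mulVec, dotProduct, Fin.sum_univ_three] using this
    obtain ⟨k21, -, k11, k22, k01⟩ := (hUNB p F f q σ hp hf hq hcard hσ).1 w' g1 g2
    rw [g0, one_pow, mul_one] at k11
    rw [g0, one_pow, mul_one] at k22
    have k01' := k01 g0
    have f1 := hfixx w hw
    rw [← hw'] at f1
    have r0 := congrFun f1 0
    have r1 := congrFun f1 1
    simp only [Matrix.mulVec, dotProduct, Fin.sum_univ_three] at r0 r1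
    rw [g1, k11] at r1
    have k12 : w'.1.1 1 2 = 0 := by
      have e3 : w'.1.1 1 2 * x 2 = 0 := by linear_combination r1
      rcases mul_eq_zero.1 e3 with e4 | e4
      · exact e4
      · exact absurd e4 hx2n
    rw [k12, zero_pow (by omega)] at k01'
    rw [g0, k01'] at r0
    have k02 : w'.1.1 0 2 = 0 := by
      have e3 : w'.1.1 0 2 * x 2 = 0 := by linear_combination r0
      rcases mul_eq_zero.1 e3 with e4 | e4
      · exact e4
      · exact absurd e4 hx2n
    have hw1 : w' = 1 := by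
      apply Subtype.ext
      apply Subtype.ext
      show w'.1.1 = 1
      ext i j
      fin_cases i <;> fin_cases j
      · simpa using g0
      · simpa using k01'
      · simpa using k02
      · simpa using g1
      · simpa using k11
      · simpa using k12
      · simpa using g2
      · simpa using k21
      · simpa using k22
    have e5 : w = h * w' * h⁻¹ := by
      rw [hw']
      group
    rw [e5, hw1]
    group
  refine ⟨?_, ?_⟩
  · rw [← hx1]
    unfold vb1H at hxiso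
    rw [hx2z, map_zero] at hxiso
    have e3 : σ (x 1) * x 1 = 0 := by linear_combination -hxiso
    rcases mul_eq_zero.1 e3 with e4 | e4
    · exact (map_eq_zero σ).1 e4
    · exact e4
  · rw [← hx2]
    exact hx2z

end Pool.CND
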